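import Mathlib

/-!
# A locally chain-bounded lattice without strictly monotone maps to the integers

Let `M` be the lattice of pairs `(F, K)` of a finite set `F` of functions `ℕ → ℕ` (ordered by
reverse inclusion) and a finite set `K` of naturals (ordered by inclusion).  Replace each point
`(F, K)` by a chain with `1 + ∑_{g ∈ F, k ∈ K} g k` elements.
-/

namespace Pool.Agent.Results.MP_df7fe8_co.NoStrictMap

open Classical

/-- `P` is locally chain-bounded: for `x ≤ y` the lengths of the chains in `[x, y]` are bounded. -/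
def LocallyChainBounded (P : Type*) [PartialOrder P] : Prop :=
  ∀ x y : P, x ≤ y → ∃ n : ℕ, ∀ C : Set P, (∀ z ∈ C, x ≤ z ∧ z ≤ y) → IsChain (· ≤ ·) C →
    C.encard ≤ n

/-- The points of the lexicographic sum over `M` of chains with `n p + 1` elements. -/
@[ext] structure Blow (M : Type) (n : M → ℕ) where
  base : M
  idx : ℕ
  idx_le : idx ≤ n base

variable {M : Type} [Lattice M] {n : M → ℕ}

instance : PartialOrder (Blow M n) where
  le x y := x.base < y.base ∨ (x.base = y.base ∧ x.idx ≤ y.idx)
  le_refl x := Or.inr ⟨rfl, le_rfl⟩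
  le_trans x y z h1 h2 := by
    rcases h1 with h1 | ⟨h1, h1'⟩ <;> rcases h2 with h2 | ⟨h2, h2'⟩
    · exact Or.inl (h1.trans h2)
    · exact Or.inl (h2 ▸ h1)
    · exact Or.inl (h1 ▸ h2)
    · exact Or.inr ⟨h1.trans h2, h1'.trans h2'⟩
  le_antisymm x y h1 h2 := by
    rcases h1 with h1 | ⟨h1, h1'⟩ <;> rcases h2 with h2 | ⟨h2, h2'⟩
    · exact absurd (h1.trans h2) (lt_irrefl _)
    · exact absurd (h2 ▸ h1) (lt_irrefl _)
    · exact absurd (h1 ▸ h2) (lt_irrefl _)
    · exact Blow.ext h1 (le_antisymm h1' h2')

lemma le_def (x y : Blow M n) : x ≤ y ↔ x.base < y.base ∨ (x.base = y.base ∧ x.idx ≤ y.idx) :=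
  Iff.rfl

lemma base_mono {x y : Blow M n} (h : x ≤ y) : x.base ≤ y.base := by
  rcases h with h | h
  · exact h.le
  · exact h.1.le

lemma base_incomp {x y : Blow M n} (h1 : ¬ x ≤ y) (h2 : ¬ y ≤ x) :
    ¬ x.base ≤ y.base ∧ ¬ y.base ≤ x.base := by
  rw [le_def] at h1 h2
  push Not at h1 h2
  constructor
  · intro h
    rcases h.lt_or_eq with h | h
    · exact h1.1 h
    · have := h1.2 h
      have := h2.2 h.symm
      omega
  · intro h
    rcases h.lt_or_eq with h | h
    · exact h2.1 h
    · have := h1.2 h.symm
      have := h2.2 h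
      omega

/-- The lexicographic sum of finite chains over a lattice is a lattice. -/
noncomputable instance : Lattice (Blow M n) where
  sup x y := if x ≤ y then y else if y ≤ x then x else ⟨x.base ⊔ y.base, 0, Nat.zero_le _⟩
  inf x y := if x ≤ y then x else if y ≤ x then y else ⟨x.base ⊓ y.base, n _, le_rfl⟩
  le_sup_left x y := by
    by_cases h1 : x ≤ y
    · simp only [h1, if_true]
    · by_cases h2 : y ≤ x
      · simp only [h1, h2, if_true, if_false, le_refl]
      · simp only [h1, h2, if_false]
        left
        exact lt_of_le_of_ne le_sup_left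
          fun h => (base_incomp h1 h2).2 (by rw [h]; exact le_sup_right)
  le_sup_right x y := by
    by_cases h1 : x ≤ y
    · simp only [h1, if_true, le_refl]
    · by_cases h2 : y ≤ x
      · simp only [h1, h2, if_true, if_false]
      · simp only [h1, h2, if_false]
        left
        exact lt_of_le_of_ne le_sup_right
          fun h => (base_incomp h1 h2).1 (by rw [h]; exact le_sup_left)
  sup_le x y z hx hy := by
    by_cases h1 : x ≤ y
    · simp only [h1, if_true]; exact hy
    · by_cases h2 : y ≤ x
      · simp only [h1, h2, if_true, if_false]; exact hx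
      · simp only [h1, h2, if_false]
        rcases (sup_le (base_mono hx) (base_mono hy)).lt_or_eq with h | h
        · exact Or.inl h
        · exact Or.inr ⟨h, Nat.zero_le _⟩
  inf_le_left x y := by
    by_cases h1 : x ≤ y
    · simp only [h1, if_true, le_refl]
    · by_cases h2 : y ≤ x
      · simp only [h1, h2, if_true, if_false]
      · simp only [h1, h2, if_false]
        left
        exact lt_of_le_of_ne inf_le_left
          fun h => (base_incomp h1 h2).1 (by rw [← h]; exact inf_le_right)
  inf_le_right x y := by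
    by_cases h1 : x ≤ y
    · simp only [h1, if_true]
    · by_cases h2 : y ≤ x
      · simp only [h1, h2, if_true, if_false, le_refl]
      · simp only [h1, h2, if_false]
        left
        exact lt_of_le_of_ne inf_le_right
          fun h => (base_incomp h1 h2).2 (by rw [← h]; exact inf_le_left)
  le_inf x y z hx hy := by
    by_cases h1 : y ≤ z
    · simp only [h1, if_true]; exact hx
    · by_cases h2 : z ≤ y
      · simp only [h1, h2, if_true, if_false]; exact hy
      · simp only [h1, h2, if_false]
        rcases (le_inf (base_mono hx) (base_mono hy)).lt_or_eq with h | h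
        · exact Or.inl h
        · exact Or.inr ⟨h, by simpa only [← h] using x.idx_le⟩

/-- If the intervals of `M` are finite, so are those of the lexicographic sum. -/
lemma finite_Icc (hM : ∀ p q : M, (Set.Icc p q).Finite) (x y : Blow M n) :
    (Set.Icc x y).Finite := by
  let e : Blow M n → M × ℕ := fun z => (z.base, z.idx)
  have he : Function.Injective e := by
    intro a b h
    simp only [e, Prod.mk.injEq] at h
    exact Blow.ext h.1 h.2
  refine Set.Finite.of_injOn (f := e)
    (t := ⋃ p ∈ Set.Icc x.base y.base, ({p} : Set M) ×ˢ Set.Iic (n p)) ?_ he.injOn ?_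
  · intro z hz
    simp only [Set.mem_iUnion]
    exact ⟨z.base, ⟨base_mono hz.1, base_mono hz.2⟩, rfl, z.idx_le⟩
  · exact Set.Finite.biUnion (hM _ _) (fun p _ => (Set.finite_singleton p).prod (Set.finite_Iic _))

lemma locallyChainBounded_blow (hM : ∀ p q : M, (Set.Icc p q).Finite) :
    LocallyChainBounded (Blow M n) := by
  intro x y _
  refine ⟨(Set.Icc x y).ncard, fun C hC _ => ?_⟩
  have h1 : C ⊆ Set.Icc x y := fun z hz => ⟨(hC z hz).1, (hC z hz).2⟩
  calc C.encard ≤ (Set.Icc x y).encard := Set.encard_le_encard h1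
    _ = ((Set.Icc x y).ncard : ℕ∞) := ((finite_Icc hM x y).cast_ncard_eq).symm

/-- The base lattice: finite sets of functions under reverse inclusion times finite sets of
naturals under inclusion. -/
abbrev Base : Type := (Finset (ℕ → ℕ))ᵒᵈ × Finset ℕ

/-- The number of additional points put at `(F, K)`. -/
def extra (p : Base) : ℕ := ∑ g ∈ OrderDual.ofDual p.1, ∑ k ∈ p.2, g k

/-- The lattice of the example. -/
abbrev L : Type := Blow Base extra

lemma base_finite (p q : Base) : (Set.Icc p q).Finite := Set.finite_Icc p q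

lemma no_strict : ¬ ∃ f : L → ℤ, StrictMono f := by
  rintro ⟨f, hf⟩
  let d : ℕ → L := fun k => ⟨(OrderDual.toDual ∅, {k}), 0, Nat.zero_le _⟩
  let c : (ℕ → ℕ) → L := fun g => ⟨(OrderDual.toDual {g}, ∅), 0, Nat.zero_le _⟩
  have hextra : ∀ (g : ℕ → ℕ) (k : ℕ), extra (OrderDual.toDual {g}, {k}) = g k := by
    intro g k; simp [extra]
  let z : (g : ℕ → ℕ) → (k i : ℕ) → i ≤ g k → L := fun g k i hi =>
    ⟨(OrderDual.toDual {g}, {k}), i, by rw [hextra]; exact hi⟩
  have hcz : ∀ (g : ℕ → ℕ) (k : ℕ), c g < z g k 0 (Nat.zero_le _) := by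
    intro g k
    have h : (c g).base < (z g k 0 (Nat.zero_le _)).base := by
      rw [lt_iff_le_and_ne]
      refine ⟨⟨le_rfl, by simp [c]⟩, ?_⟩
      intro h
      have := congrArg Prod.snd h
      simp [c, z] at this
    refine lt_of_le_of_ne (Or.inl h) ?_
    intro h'
    rw [h'] at h
    exact lt_irrefl _ h
  have hzd : ∀ (g : ℕ → ℕ) (k : ℕ), z g k (g k) le_rfl < d k := by
    intro g k
    have h : (z g k (g k) le_rfl).base < (d k).base := by
      rw [lt_iff_le_and_ne]
      refine ⟨⟨?_, le_rfl⟩, ?_⟩
      · change OrderDual.toDual {g} ≤ OrderDual.toDual (∅ : Finset (ℕ → ℕ))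
        rw [OrderDual.toDual_le_toDual]
        exact Finset.empty_subset _
      · intro h
        have := congrArg (fun p : Base => OrderDual.ofDual p.1) h
        simp [d, z] at this
    refine lt_of_le_of_ne (Or.inl h) ?_
    intro h'
    rw [h'] at h
    exact lt_irrefl _ h
  have hzz : ∀ (g : ℕ → ℕ) (k i : ℕ) (hi : i ≤ g k),
      f (z g k 0 (Nat.zero_le _)) + i ≤ f (z g k i hi) := by
    intro g k i
    induction i with
    | zero => intro hi; simp
    | succ i ih =>
      intro hi
      have h1 := ih (by omega)
      have h2 : z g k i (by omega) < z g k (i + 1) hi := by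
        refine lt_of_le_of_ne (Or.inr ⟨rfl, ?_⟩) ?_
        · simp [z]
        · intro h
          have := congrArg Blow.idx h
          simp [z] at this
      have h3 := hf h2
      push_cast
      linarith
  let g : ℕ → ℕ := fun k => (max (f (d k)) 0 + k).toNat
  have hg : ∀ k, ((g k : ℕ) : ℤ) = max (f (d k)) 0 + k := by
    intro k
    exact Int.toNat_of_nonneg (by positivity)
  have key : ∀ k : ℕ, f (c g) < -k := by
    intro k
    have h1 := hf (hcz g k)
    have h2 := hf (hzd g k)
    have h3 := hzz g k (g k) le_rfl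
    rw [hg] at h3
    have h4 : f (d k) ≤ max (f (d k)) 0 := le_max_left _ _
    linarith
  have h := key (f (c g)).natAbs
  omega

/-- **There is a locally chain-bounded lattice without a strictly monotone map to `ℤ`.** -/
theorem result : ∃ (L : Type) (_ : Lattice L),
    LocallyChainBounded L ∧ ¬ ∃ f : L → ℤ, ∀ x y : L, x < y → f x < f y := by
  refine ⟨L, inferInstance, locallyChainBounded_blow base_finite, ?_⟩
  rintro ⟨f, hf⟩
  exact no_strict ⟨f, fun x y h => hf x y h⟩

end Pool.Agent.Results.MP_df7fe8_co.NoStrictMap
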